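import Mathlib

/-!
A power sum identity with icosahedral symmetry.
-/

namespace Pool.Agent.Q80.Conic

variable {e u w z : ℂ}

lemma e5 (he : e ^ 4 + e ^ 3 + e ^ 2 + e + 1 = 0) : e ^ 5 = 1 := by
  linear_combination (e - 1) * he

/-- the quintic satisfied by `a + b + w` when `a b = - w ^ 2` -/
lemma quintic (a b w B : ℂ) (hab : a * b = - w ^ 2) (hB : a ^ 5 + b ^ 5 = B) :
    (a + b + w) ^ 5 = 5 * w * (a + b + w) ^ 4 - 15 * w ^ 2 * (a + b + w) ^ 3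
      + 25 * w ^ 3 * (a + b + w) ^ 2 - 25 * w ^ 4 * (a + b + w) + (11 * w ^ 5 + B) := by
  linear_combination (5 * (a ^ 3 + b ^ 3) + 5 * (a + b) * (2 * a * b + w ^ 2)) * hab + hB

lemma recur (x w B : ℂ) (n : ℕ) (h : x ^ 5 = 5 * w * x ^ 4 - 15 * w ^ 2 * x ^ 3
      + 25 * w ^ 3 * x ^ 2 - 25 * w ^ 4 * x + (11 * w ^ 5 + B)) :
    x ^ (n + 5) = 5 * w * x ^ (n + 4) - 15 * w ^ 2 * x ^ (n + 3)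
      + 25 * w ^ 3 * x ^ (n + 2) - 25 * w ^ 4 * x ^ (n + 1) + (11 * w ^ 5 + B) * x ^ n := by
  have e : x ^ (n + 5) = x ^ n * x ^ 5 := by ring
  rw [e, h]
  ring

lemma ps1 (he : e ^ 4 + e ^ 3 + e ^ 2 + e + 1 = 0) (h : w ^ 2 = u * z) :
    (u + w - z) ^ 1 + (e * u + w - e ^ 4 * z) ^ 1 + (e ^ 2 * u + w - e ^ 3 * z) ^ 1 + (e ^ 3 * u + w - e ^ 2 * z) ^ 1 + (e ^ 4 * u + w - e * z) ^ 1 = 5 * w ^ 1 := by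
  linear_combination ((1) * u ^ 1 + (-1) * z ^ 1) * he + (0) * h

lemma ps2 (he : e ^ 4 + e ^ 3 + e ^ 2 + e + 1 = 0) (h : w ^ 2 = u * z) :
    (u + w - z) ^ 2 + (e * u + w - e ^ 4 * z) ^ 2 + (e ^ 2 * u + w - e ^ 3 * z) ^ 2 + (e ^ 3 * u + w - e ^ 2 * z) ^ 2 + (e ^ 4 * u + w - e * z) ^ 2 = -5 * w ^ 2 := by
  linear_combination ((1) * e ^ 4 * u ^ 2 + (1) * e ^ 4 * z ^ 2 + (-1) * e ^ 3 * u ^ 2 + (-1) * e ^ 3 * z ^ 2 + (1) * e ^ 2 * u ^ 2 + (1) * e ^ 2 * z ^ 2 + (-1) * e ^ 1 * u ^ 2 + (-8) * e ^ 1 * u ^ 1 * z ^ 1 + (-1) * e ^ 1 * z ^ 2 + (1) * u ^ 2 + (2) * u ^ 1 * w ^ 1 + (8) * u ^ 1 * z ^ 1 + (-2) * w ^ 1 * z ^ 1 + (1) * z ^ 2) * he + ((10)) * h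

lemma ps3 (he : e ^ 4 + e ^ 3 + e ^ 2 + e + 1 = 0) (h : w ^ 2 = u * z) :
    (u + w - z) ^ 3 + (e * u + w - e ^ 4 * z) ^ 3 + (e ^ 2 * u + w - e ^ 3 * z) ^ 3 + (e ^ 3 * u + w - e ^ 2 * z) ^ 3 + (e ^ 4 * u + w - e * z) ^ 3 = -25 * w ^ 3 := by
  linear_combination ((1) * e ^ 8 * u ^ 3 + (-1) * e ^ 8 * z ^ 3 + (-1) * e ^ 7 * u ^ 3 + (1) * e ^ 7 * z ^ 3 + (1) * e ^ 5 * u ^ 3 + (-3) * e ^ 5 * u ^ 2 * z ^ 1 + (3) * e ^ 5 * u ^ 1 * z ^ 2 + (-1) * e ^ 5 * z ^ 3 + (-1) * e ^ 4 * u ^ 3 + (3) * e ^ 4 * u ^ 2 * w ^ 1 + (3) * e ^ 4 * w ^ 1 * z ^ 2 + (1) * e ^ 4 * z ^ 3 + (1) * e ^ 3 * u ^ 3 + (-3) * e ^ 3 * u ^ 2 * w ^ 1 + (-3) * e ^ 3 * w ^ 1 * z ^ 2 + (-1) * e ^ 3 * z ^ 3 + (3) * e ^ 2 * u ^ 2 * w ^ 1 + (3) * e ^ 2 * w ^ 1 * z ^ 2 + (-1) * e ^ 1 * u ^ 3 + (-3) * e ^ 1 * u ^ 2 * w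 ^ 1 + (3) * e ^ 1 * u ^ 2 * z ^ 1 + (-24) * e ^ 1 * u ^ 1 * w ^ 1 * z ^ 1 + (-3) * e ^ 1 * u ^ 1 * z ^ 2 + (-3) * e ^ 1 * w ^ 1 * z ^ 2 + (1) * e ^ 1 * z ^ 3 + (1) * u ^ 3 + (3) * u ^ 2 * w ^ 1 + (-3) * u ^ 2 * z ^ 1 + (3) * u ^ 1 * w ^ 2 + (24) * u ^ 1 * w ^ 1 * z ^ 1 + (3) * u ^ 1 * z ^ 2 + (-3) * w ^ 2 * z ^ 1 + (3) * w ^ 1 * z ^ 2 + (-1) * z ^ 3) * he + ((30) * w ^ 1) * h

lemma ps4 (he : e ^ 4 + e ^ 3 + e ^ 2 + e + 1 = 0) (h : w ^ 2 = u * z) :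
    (u + w - z) ^ 4 + (e * u + w - e ^ 4 * z) ^ 4 + (e ^ 2 * u + w - e ^ 3 * z) ^ 4 + (e ^ 3 * u + w - e ^ 2 * z) ^ 4 + (e ^ 4 * u + w - e * z) ^ 4 = -25 * w ^ 4 := by
  linear_combination ((1) * e ^ 12 * u ^ 4 + (1) * e ^ 12 * z ^ 4 + (-1) * e ^ 11 * u ^ 4 + (-1) * e ^ 11 * z ^ 4 + (-4) * e ^ 9 * u ^ 3 * z ^ 1 + (-4) * e ^ 9 * u ^ 1 * z ^ 3 + (1) * e ^ 8 * u ^ 4 + (4) * e ^ 8 * u ^ 3 * w ^ 1 + (4) * e ^ 8 * u ^ 3 * z ^ 1 + (4) * e ^ 8 * u ^ 1 * z ^ 3 + (-4) * e ^ 8 * w ^ 1 * z ^ 3 + (1) * e ^ 8 * z ^ 4 + (-4) * e ^ 7 * u ^ 3 * w ^ 1 + (-4) * e ^ 7 * u ^ 3 * z ^ 1 + (-4) * e ^ 7 * u ^ 1 * z ^ 3 + (4) * e ^ 7 * w ^ 1 * z ^ 3 + (-1) * e ^ 6 * u ^ 4 + (4) * e ^ 6 * u ^ 3 * z ^ 1 + (24) * e ^ 6 * u ^ 2 * z ^ 2 + (4) * e ^ 6 * u ^ 1 * z ^ 3 + (-1) * e ^ 6 * z ^ 4 + (4) * e ^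 5 * u ^ 3 * w ^ 1 + (-4) * e ^ 5 * u ^ 3 * z ^ 1 + (-12) * e ^ 5 * u ^ 2 * w ^ 1 * z ^ 1 + (-24) * e ^ 5 * u ^ 2 * z ^ 2 + (12) * e ^ 5 * u ^ 1 * w ^ 1 * z ^ 2 + (-4) * e ^ 5 * u ^ 1 * z ^ 3 + (-4) * e ^ 5 * w ^ 1 * z ^ 3 + (1) * e ^ 4 * u ^ 4 + (-4) * e ^ 4 * u ^ 3 * w ^ 1 + (6) * e ^ 4 * u ^ 2 * w ^ 2 + (6) * e ^ 4 * w ^ 2 * z ^ 2 + (4) * e ^ 4 * w ^ 1 * z ^ 3 + (1) * e ^ 4 * z ^ 4 + (4) * e ^ 3 * u ^ 3 * w ^ 1 + (-6) * e ^ 3 * u ^ 2 * w ^ 2 + (-6) * e ^ 3 * w ^ 2 * z ^ 2 + (-4) * e ^ 3 * w ^ 1 * z ^ 3 + (6) * e ^ 2 * u ^ 2 * w ^ 2 + (6) * e ^ 2 * w ^ 2 * z ^ 2 + (-1) * e ^ 1 * u ^ 4 + (-4) * e ^ 1 * u ^ 3 * w ^ 1 + (4) * e ^ 1 * u ^ 3 * z ^ 1 + (-6) * e ^ 1 * u ^ 2 * w ^ 2 + (12) * e ^ 1 * u ^ 2 * w ^ 1 * z ^ 1 + (24) * e ^ 1 * u ^ 2 * z ^ 2 + (-48) * e ^ 1 * u ^ 1 *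 w ^ 2 * z ^ 1 + (-12) * e ^ 1 * u ^ 1 * w ^ 1 * z ^ 2 + (4) * e ^ 1 * u ^ 1 * z ^ 3 + (-6) * e ^ 1 * w ^ 2 * z ^ 2 + (4) * e ^ 1 * w ^ 1 * z ^ 3 + (-1) * e ^ 1 * z ^ 4 + (1) * u ^ 4 + (4) * u ^ 3 * w ^ 1 + (-4) * u ^ 3 * z ^ 1 + (6) * u ^ 2 * w ^ 2 + (-12) * u ^ 2 * w ^ 1 * z ^ 1 + (-24) * u ^ 2 * z ^ 2 + (4) * u ^ 1 * w ^ 3 + (48) * u ^ 1 * w ^ 2 * z ^ 1 + (12) * u ^ 1 * w ^ 1 * z ^ 2 + (-4) * u ^ 1 * z ^ 3 + (-4) * w ^ 3 * z ^ 1 + (6) * w ^ 2 * z ^ 2 + (-4) * w ^ 1 * z ^ 3 + (1) * z ^ 4) * he + ((-30) * u ^ 1 * z ^ 1 + (30) * w ^ 2) * h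

/-- The fourteenth power sum. -/
theorem psum14 (he : e ^ 4 + e ^ 3 + e ^ 2 + e + 1 = 0) (h : w ^ 2 = u * z) :
    (u + w - z) ^ 14 + (e * u + w - e ^ 4 * z) ^ 14 + (e ^ 2 * u + w - e ^ 3 * z) ^ 14 +
      (e ^ 3 * u + w - e ^ 2 * z) ^ 14 + (e ^ 4 * u + w - e * z) ^ 14 = -78125 * w ^ 14 := by
  have h5 := e5 he
  set B := u ^ 5 - z ^ 5 with hB
  set x0 := u + w - z with hx0
  set x1 := e * u + w - e ^ 4 * z with hx1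
  set x2 := e ^ 2 * u + w - e ^ 3 * z with hx2
  set x3 := e ^ 3 * u + w - e ^ 2 * z with hx3
  set x4 := e ^ 4 * u + w - e * z with hx4
  have q0 : x0 ^ 5 = 5 * w * x0 ^ 4 - 15 * w ^ 2 * x0 ^ 3
      + 25 * w ^ 3 * x0 ^ 2 - 25 * w ^ 4 * x0 + (11 * w ^ 5 + B) := by
    have := quintic u (-z) w B (by linear_combination h) (by rw [hB]; ring)
    have e1 : u + -z + w = x0 := by rw [hx0]; ring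
    rwa [e1] at this
  have q1 : x1 ^ 5 = 5 * w * x1 ^ 4 - 15 * w ^ 2 * x1 ^ 3
      + 25 * w ^ 3 * x1 ^ 2 - 25 * w ^ 4 * x1 + (11 * w ^ 5 + B) := by
    have := quintic (e * u) (-(e ^ 4 * z)) w B
      (by linear_combination h - u * z * h5)
      (by
        rw [hB]
        linear_combination (u ^ 5 - z ^ 5 * (e ^ 15 + e ^ 10 + e ^ 5 + 1)) * h5)
    have e1 : e * u + -(e ^ 4 * z) + w = x1 := by rw [hx1]; ring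
    rwa [e1] at this
  have q2 : x2 ^ 5 = 5 * w * x2 ^ 4 - 15 * w ^ 2 * x2 ^ 3
      + 25 * w ^ 3 * x2 ^ 2 - 25 * w ^ 4 * x2 + (11 * w ^ 5 + B) := by
    have := quintic (e ^ 2 * u) (-(e ^ 3 * z)) w B
      (by linear_combination h - u * z * h5)
      (by
        rw [hB]
        linear_combination (u ^ 5 * (e ^ 5 + 1) - z ^ 5 * (e ^ 10 + e ^ 5 + 1)) * h5)
    have e1 : e ^ 2 * u + -(e ^ 3 * z) + w = x2 := by rw [hx2]; ring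
    rwa [e1] at this
  have q3 : x3 ^ 5 = 5 * w * x3 ^ 4 - 15 * w ^ 2 * x3 ^ 3
      + 25 * w ^ 3 * x3 ^ 2 - 25 * w ^ 4 * x3 + (11 * w ^ 5 + B) := by
    have := quintic (e ^ 3 * u) (-(e ^ 2 * z)) w B
      (by linear_combination h - u * z * h5)
      (by
        rw [hB]
        linear_combination (u ^ 5 * (e ^ 10 + e ^ 5 + 1) - z ^ 5 * (e ^ 5 + 1)) * h5)
    have e1 : e ^ 3 * u + -(e ^ 2 * z) + w = x3 := by rw [hx3]; ring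
    rwa [e1] at this
  have q4 : x4 ^ 5 = 5 * w * x4 ^ 4 - 15 * w ^ 2 * x4 ^ 3
      + 25 * w ^ 3 * x4 ^ 2 - 25 * w ^ 4 * x4 + (11 * w ^ 5 + B) := by
    have := quintic (e ^ 4 * u) (-(e * z)) w B
      (by linear_combination h - u * z * h5)
      (by
        rw [hB]
        linear_combination (u ^ 5 * (e ^ 15 + e ^ 10 + e ^ 5 + 1) - z ^ 5) * h5)
    have e1 : e ^ 4 * u + -(e * z) + w = x4 := by rw [hx4]; ring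
    rwa [e1] at this
  set p : ℕ → ℂ := fun n => x0 ^ n + x1 ^ n + x2 ^ n + x3 ^ n + x4 ^ n with hp
  have hrec : ∀ n, p (n + 5) = 5 * w * p (n + 4) - 15 * w ^ 2 * p (n + 3)
      + 25 * w ^ 3 * p (n + 2) - 25 * w ^ 4 * p (n + 1) + (11 * w ^ 5 + B) * p n := by
    intro n
    have r0 := recur x0 w B n q0
    have r1 := recur x1 w B n q1
    have r2 := recur x2 w B n q2
    have r3 := recur x3 w B n q3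
    have r4 := recur x4 w B n q4
    simp only [hp]
    linear_combination r0 + r1 + r2 + r3 + r4
  have p0 : p 0 = 5 := by simp only [hp]; norm_num
  have p1 : p 1 = 5 * w ^ 1 := ps1 he h
  have p2 : p 2 = -5 * w ^ 2 := ps2 he h
  have p3 : p 3 = -25 * w ^ 3 := ps3 he h
  have p4 : p 4 = -25 * w ^ 4 := ps4 he h
  have p5 : p 5 = (55) * w ^ 5 * B ^ 0 + (5) * w ^ 0 * B ^ 1 := by
    rw [hrec 0, p4, p3, p2, p1, p0]; ring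
  have p6 : p 6 = (205) * w ^ 6 * B ^ 0 + (30) * w ^ 1 * B ^ 1 := by
    rw [hrec 1, p5, p4, p3, p2, p1]; ring
  have p7 : p 7 = (145) * w ^ 7 * B ^ 0 + (70) * w ^ 2 * B ^ 1 := by
    rw [hrec 2, p6, p5, p4, p3, p2]; ring
  have p8 : p 8 = (-625) * w ^ 8 * B ^ 0 := by
    rw [hrec 3, p7, p6, p5, p4, p3]; ring
  have p9 : p 9 = (-1825) * w ^ 9 * B ^ 0 + (-450) * w ^ 4 * B ^ 1 := by
    rw [hrec 4, p8, p7, p6, p5, p4]; ring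
  have p10 : p 10 = (-645) * w ^ 10 * B ^ 0 + (-1140) * w ^ 5 * B ^ 1 + (5) * w ^ 0 * B ^ 2 := by
    rw [hrec 5, p9, p8, p7, p6, p5]; ring
  have p11 : p 11 = (7155) * w ^ 11 * B ^ 0 + (-165) * w ^ 6 * B ^ 1 + (55) * w ^ 1 * B ^ 2 := by
    rw [hrec 6, p10, p9, p8, p7, p6]; ring
  have p12 : p 12 = (17045) * w ^ 12 * B ^ 0 + (5940) * w ^ 7 * B ^ 1 + (270) * w ^ 2 * B ^ 2 := by
    rw [hrec 7, p11, p10, p9, p8, p7]; ring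
  have p13 : p 13 = (525) * w ^ 13 * B ^ 0 + (14300) * w ^ 8 * B ^ 1 + (650) * w ^ 3 * B ^ 2 := by
    rw [hrec 8, p12, p11, p10, p9, p8]; ring
  have p14 : p 14 = (-78125) * w ^ 14 * B ^ 0 := by
    rw [hrec 9, p13, p12, p11, p10, p9]; ring
  have := p14
  simp only [hp] at this
  rw [this]
  ring

end Pool.Agent.Q80.Conic
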