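import Pool.Agent.Q80.Conic.Upper
import Pool.Agent.Q80.Conic.Lower

/-!
Conics on the hypersurfaces `x_1^d + x_2^d + x_3^d = x_4^d + x_5^d + x_6^d`.
-/

namespace Pool.Agent.Q80.Conic

open Polynomial

/-- The form `x_1 ^ d + x_2 ^ d + x_3 ^ d - x_4 ^ d - x_5 ^ d - x_6 ^ d`. -/
def diagForm (d : ℕ) (x : Fin 6 → ℂ) : ℂ :=
  x 0 ^ d + x 1 ^ d + x 2 ^ d - x 3 ^ d - x 4 ^ d - x 5 ^ d

/-- `C` is the affine cone over a smooth conic in a plane of `ℙ⁵`: the image of the zero set of a
nondegenerate quadratic form in three variables under an injective linear map. -/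
def IsConicCone (C : Set (Fin 6 → ℂ)) : Prop :=
  ∃ (L : (Fin 3 → ℂ) →ₗ[ℂ] (Fin 6 → ℂ)) (Q : QuadraticForm ℂ (Fin 3 → ℂ)),
    Function.Injective L ∧ (QuadraticMap.associated (R := ℂ) Q).SeparatingLeft ∧
      C = L '' {v | Q v = 0}

/-- The curve with affine cone `C` is degenerate: for some `i ≠ j` and `(a, b) ≠ (0, 0)` the
linear form `a x_i - b x_j` vanishes on it. -/
def IsDegenerate (C : Set (Fin 6 → ℂ)) : Prop :=
  ∃ i j : Fin 6, i ≠ j ∧ ∃ a b : ℂ, (a ≠ 0 ∨ b ≠ 0) ∧ ∀ x ∈ C, a * x i - b * x j = 0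

/-- The quadratic form `w ^ 2 - u z`. -/
noncomputable def Q0 : QuadraticForm ℂ (Fin 3 → ℂ) :=
  QuadraticMap.linMulLin (LinearMap.proj 1) (LinearMap.proj 1) -
    QuadraticMap.linMulLin (LinearMap.proj 0) (LinearMap.proj 2)

theorem Q0_apply (v : Fin 3 → ℂ) : Q0 v = v 1 * v 1 - v 0 * v 2 := rfl

theorem Q0_nondeg : (QuadraticMap.associated (R := ℂ) Q0).SeparatingLeft := by
  intro x hx
  have h : ∀ y, Q0 (x + y) - Q0 x - Q0 y = 0 := by
    intro y
    have h1 := hx y
    rw [QuadraticMap.associated_apply] at h1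
    have h2 : (2 : Module.End ℂ ℂ) ((⅟(2 : Module.End ℂ ℂ)) • (Q0 (x + y) - Q0 x - Q0 y)) =
        Q0 (x + y) - Q0 x - Q0 y := by
      change ((2 : Module.End ℂ ℂ) * ⅟(2 : Module.End ℂ ℂ)) _ = _
      rw [mul_invOf_self]
      rfl
    rw [← h2, h1, map_zero]
  simp only [Q0_apply, Pi.add_apply] at h
  have h0 := h ![1, 0, 0]
  have h1 := h ![0, 1, 0]
  have h2 := h ![0, 0, 1]
  simp at h0 h1 h2
  funext i
  fin_cases i
  · simp only [Pi.zero_apply]
    change x 0 = 0
    linear_combination -h2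
  · change x 1 = 0
    linear_combination h1 / 2
  · change x 2 = 0
    linear_combination -h0

/-- Parametrisation of the cone `w ^ 2 = u z`. -/
theorem exists_param (v : Fin 3 → ℂ) (hv : Q0 v = 0) :
    ∃ s t : ℂ, v = ![s ^ 2, s * t, t ^ 2] := by
  rw [Q0_apply] at hv
  obtain ⟨s, hs⟩ := IsAlgClosed.exists_pow_nat_eq (v 0) (show 0 < 2 by norm_num)
  by_cases h0 : s = 0
  · subst h0
    have h1 : v 0 = 0 := by rw [← hs]; ring
    have h2 : v 1 = 0 := by
      rw [h1, zero_mul, sub_zero] at hv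
      exact mul_self_eq_zero.1 hv
    obtain ⟨t, ht⟩ := IsAlgClosed.exists_pow_nat_eq (v 2) (show 0 < 2 by norm_num)
    refine ⟨0, t, ?_⟩
    funext i
    fin_cases i
    · simp [h1]
    · simp [h2]
    · simp [ht]
  · refine ⟨s, v 1 / s, ?_⟩
    funext i
    fin_cases i
    · simp [hs]
    · simp only [Fin.mk_one, Matrix.cons_val_one]
      change v 1 = s * (v 1 / s)
      field_simp
    · change v 2 = (v 1 / s) ^ 2
      rw [div_pow, hs]
      have h1 : v 0 ≠ 0 := by rw [← hs]; exact pow_ne_zero _ h0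
      rw [eq_div_iff h1]
      linear_combination -hv

theorem quad_coeff (p q r : ℂ) : coeff (C p * X ^ 2 + C q * X + C r) 0 = r ∧
    coeff (C p * X ^ 2 + C q * X + C r) 1 = q ∧ coeff (C p * X ^ 2 + C q * X + C r) 2 = p := by
  refine ⟨?_, ?_, ?_⟩ <;> simp [coeff_X, coeff_X_pow, coeff_C]

theorem upper (d : ℕ) (hd : 15 ≤ d) (C : Set (Fin 6 → ℂ)) (hC : IsConicCone C)
    (hX : ∀ x ∈ C, diagForm d x = 0) : IsDegenerate C := by
  by_contra hdeg
  obtain ⟨L, Q, hL, hQ, rfl⟩ := hC
  obtain ⟨φ⟩ := QuadraticForm.equivalent_of_isAlgClosed Q0 Q Q0_nondeg hQ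
  -- the parametrised cone
  set M : (Fin 3 → ℂ) →ₗ[ℂ] (Fin 6 → ℂ) := L ∘ₗ φ.toLinearEquiv.toLinearMap with hM
  have hmem : ∀ v, Q0 v = 0 → M v ∈ L '' {v | Q v = 0} := by
    intro v hv
    refine ⟨φ v, ?_, rfl⟩
    change Q (φ v) = 0
    rw [φ.map_app, hv]
  have hmem2 : ∀ x ∈ L '' {v | Q v = 0}, ∃ s t : ℂ, x = M ![s ^ 2, s * t, t ^ 2] := by
    rintro _ ⟨v, hv, rfl⟩
    have h1 : Q0 (φ.symm v) = 0 := by
      rw [φ.symm.map_app]
      exact hv
    obtain ⟨s, t, hst⟩ := exists_param _ h1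
    refine ⟨s, t, ?_⟩
    rw [← hst]
    change L v = L (φ (φ.symm v))
    rw [φ.apply_symm_apply]
  set a : Fin 6 → ℂ := M ![1, 0, 0] with ha
  set b : Fin 6 → ℂ := M ![0, 1, 0] with hb
  set c : Fin 6 → ℂ := M ![0, 0, 1] with hc
  have hMv : ∀ u w z : ℂ, ∀ i, M ![u, w, z] i = a i * u + b i * w + c i * z := by
    intro u w z i
    have : (![u, w, z] : Fin 3 → ℂ) = u • ![1, 0, 0] + w • ![0, 1, 0] + z • ![0, 0, 1] := by
      funext j
      fin_cases j <;> simp
    rw [this, map_add, map_add, map_smul, map_smul, map_smul]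
    simp only [Pi.add_apply, Pi.smul_apply, smul_eq_mul, ← ha, ← hb, ← hc]
    ring
  -- proportional coefficients are impossible
  have hnp : ∀ i j, i ≠ j → ∀ y : ℂ, ¬ (a i = y * a j ∧ b i = y * b j ∧ c i = y * c j) := by
    rintro i j hij y ⟨h1, h2, h3⟩
    apply hdeg
    refine ⟨i, j, hij, 1, y, Or.inl one_ne_zero, ?_⟩
    intro x hx
    obtain ⟨s, t, rfl⟩ := hmem2 x hx
    rw [hMv, hMv, h1, h2, h3]
    ring
  have hnz : ∀ i, ¬ (a i = 0 ∧ b i = 0 ∧ c i = 0) := by
    rintro i ⟨h1, h2, h3⟩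
    obtain ⟨j, hj⟩ : ∃ j : Fin 6, i ≠ j := by
      by_cases h : i = 0
      · exact ⟨1, by rw [h]; decide⟩
      · exact ⟨0, h⟩
    exact hnp i j hj 0 ⟨by rw [h1]; ring, by rw [h2]; ring, by rw [h3]; ring⟩
  -- a good point at infinity
  obtain ⟨α, hα⟩ : ∃ α : ℂ, ∀ i, a i + b i * α + c i * α ^ 2 ≠ 0 := by
    have hP : (∏ i : Fin 6, (C (a i) + C (b i) * X + C (c i) * X ^ 2 : ℂ[X])) ≠ 0 := by
      rw [Finset.prod_ne_zero_iff]
      intro i _ h0
      apply hnz i
      have e0 := congrArg (fun p => coeff p 0) h0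
      have e1 := congrArg (fun p => coeff p 1) h0
      have e2 := congrArg (fun p => coeff p 2) h0
      simp [coeff_X, coeff_X_pow] at e0 e1 e2
      exact ⟨e0, e1, e2⟩
    by_contra hcon
    push Not at hcon
    apply hP
    apply Polynomial.funext
    intro α
    obtain ⟨i, hi⟩ := hcon α
    rw [eval_prod, eval_zero]
    apply Finset.prod_eq_zero (Finset.mem_univ i)
    simpa using hi
  set g : Fin 6 → ℂ[X] := fun i => C (a i + b i * α + c i * α ^ 2) * X ^ 2 +
    C (b i + 2 * c i * α) * X + C (c i) with hg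
  have hgeval : ∀ i x, (g i).eval x = M ![x ^ 2, x * (1 + α * x), (1 + α * x) ^ 2] i := by
    intro i x
    rw [hMv]
    simp only [hg, eval_add, eval_mul, eval_C, eval_pow, eval_X]
    ring
  refine no_relation g ?_ ?_ d hd ![1, 1, 1, -1, -1, -1] ?_ ?_
  · intro i
    exact natDegree_quadratic (hα i)
  · intro i j hij y h
    have e0 : c i = y * c j := by
      have := congrArg (fun p => coeff p 0) h
      simp only [hg, coeff_C_mul, (quad_coeff _ _ _).1] at this
      exact this
    have e1 : b i + 2 * c i * α = y * (b j + 2 * c j * α) := by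
      have := congrArg (fun p => coeff p 1) h
      simp only [hg, coeff_C_mul, (quad_coeff _ _ _).2.1] at this
      exact this
    have e2 : a i + b i * α + c i * α ^ 2 = y * (a j + b j * α + c j * α ^ 2) := by
      have := congrArg (fun p => coeff p 2) h
      simp only [hg, coeff_C_mul, (quad_coeff _ _ _).2.2] at this
      exact this
    have f1 : b i = y * b j := by linear_combination e1 - 2 * α * e0
    refine hnp i j hij y ⟨?_, f1, e0⟩
    linear_combination e2 - α * f1 - α ^ 2 * e0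
  · intro i
    fin_cases i <;> simp
  · apply Polynomial.funext
    intro x
    have h1 := hX _ (hmem ![x ^ 2, x * (1 + α * x), (1 + α * x) ^ 2] (by
      rw [Q0_apply]
      simp
      ring))
    unfold diagForm at h1
    simp only [← hgeval] at h1
    rw [Fin.sum_univ_six]
    simp only [eval_add, eval_mul, eval_pow, eval_C, eval_zero]
    simp
    linear_combination h1

/-- There is a primitive fifth root of unity. -/
theorem exists_e : ∃ e : ℂ, e ^ 4 + e ^ 3 + e ^ 2 + e + 1 = 0 ∧ ∀ k l : ℕ, k < 5 → l < 5 →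
    e ^ k = e ^ l → k = l := by
  have h := Complex.isPrimitiveRoot_exp 5 (by norm_num)
  refine ⟨_, ?_, fun k l hk hl hkl => h.pow_inj hk hl hkl⟩
  have h1 := h.geom_sum_eq_zero (by norm_num)
  simp only [Finset.sum_range_succ, Finset.sum_range_zero] at h1
  linear_combination h1

theorem lower : ∃ C : Set (Fin 6 → ℂ), IsConicCone C ∧ (∀ x ∈ C, diagForm 14 x = 0) ∧
    ¬ IsDegenerate C := by
  obtain ⟨e, he, hinj⟩ := exists_e
  have h5 := e5 he
  have he0 : e ≠ 0 := by
    rintro rfl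
    simp at he
  obtain ⟨ρ, hρ⟩ := IsAlgClosed.exists_pow_nat_eq (5 : ℂ) (show 0 < 2 by norm_num)
  obtain ⟨η, hη⟩ := IsAlgClosed.exists_pow_nat_eq (-1 : ℂ) (show 0 < 14 by norm_num)
  have hρ0 : ρ ≠ 0 := by
    rintro rfl
    norm_num at hρ
  have hη0 : η ≠ 0 := by
    rintro rfl
    norm_num at hη
  -- scaling factors
  set m : Fin 5 → ℂ := ![1, 1, η, η, η] with hm
  have hm0 : ∀ k, m k ≠ 0 := by
    intro k
    fin_cases k <;> simp [hm, hη0]
  set f : Fin 6 → (Fin 3 → ℂ) → ℂ := Fin.cons (fun v => ρ * v 1)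
    (fun (k : Fin 5) v => m k * (e ^ (k : ℕ) * v 0 + v 1 - e ^ (4 * (k : ℕ)) * v 2)) with hf
  have hf0 : ∀ v, f 0 v = ρ * v 1 := fun v => rfl
  have hfs : ∀ (k : Fin 5) v, f k.succ v =
    m k * (e ^ (k : ℕ) * v 0 + v 1 - e ^ (4 * (k : ℕ)) * v 2) := fun k v => rfl
  have hlin : ∀ i, IsLinearMap ℂ (f i) := by
    intro i
    rcases Fin.eq_zero_or_eq_succ i with rfl | ⟨k, rfl⟩
    · constructor
      · intro x y
        simp only [hf0, Pi.add_apply]
        ring
      · intro x y
        simp only [hf0, Pi.smul_apply, smul_eq_mul]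
        ring
    · constructor
      · intro x y
        simp only [hfs, Pi.add_apply]
        ring
      · intro x y
        simp only [hfs, Pi.smul_apply, smul_eq_mul]
        ring
  set L : (Fin 3 → ℂ) →ₗ[ℂ] (Fin 6 → ℂ) := LinearMap.pi fun i => (hlin i).mk' _ with hL
  have hLa : ∀ v i, L v i = f i v := fun v i => rfl
  refine ⟨L '' {v | Q0 v = 0}, ⟨L, Q0, ?_, Q0_nondeg, rfl⟩, ?_, ?_⟩
  · rw [← LinearMap.ker_eq_bot, LinearMap.ker_eq_bot']
    intro v hv
    have h0 := congrFun hv 0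
    have h1 := congrFun hv (Fin.succ 0)
    have h2 := congrFun hv (Fin.succ 1)
    rw [hLa, Pi.zero_apply] at h0 h1 h2
    rw [hf0] at h0
    rw [hfs] at h1 h2
    have k1 : v 1 = 0 := (mul_eq_zero.1 h0).resolve_left hρ0
    have k2 := (mul_eq_zero.1 h1).resolve_left (hm0 0)
    have k3 := (mul_eq_zero.1 h2).resolve_left (hm0 1)
    simp only [Fin.val_zero, Fin.val_one, pow_zero, mul_zero, pow_one, mul_one, k1] at k2 k3
    have k4 : v 0 = v 2 := by linear_combination k2
    have k5 : (e - e ^ 4) * v 2 = 0 := by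
      rw [k4] at k3
      linear_combination k3
    have k6 : e - e ^ 4 ≠ 0 := by
      intro h
      have : e ^ 1 = e ^ 4 := by linear_combination h
      have := hinj 1 4 (by norm_num) (by norm_num) this
      omega
    have k7 := (mul_eq_zero.1 k5).resolve_left k6
    funext i
    fin_cases i
    · change v 0 = 0
      rw [k4, k7]
    · exact k1
    · exact k7
  · rintro _ ⟨v, hv, rfl⟩
    have hv' : v 1 ^ 2 = v 0 * v 2 := by
      have : v 1 * v 1 - v 0 * v 2 = 0 := hv
      linear_combination this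
    have hps := psum14 (e := e) he hv'
    unfold diagForm
    have e0 : L v 0 = ρ * v 1 := rfl
    have e1 : L v 1 = 1 * (e ^ 0 * v 0 + v 1 - e ^ (4 * 0) * v 2) := rfl
    have e2 : L v 2 = 1 * (e ^ 1 * v 0 + v 1 - e ^ (4 * 1) * v 2) := rfl
    have e3 : L v 3 = η * (e ^ 2 * v 0 + v 1 - e ^ (4 * 2) * v 2) := rfl
    have e4 : L v 4 = η * (e ^ 3 * v 0 + v 1 - e ^ (4 * 3) * v 2) := rfl
    have e5' : L v 5 = η * (e ^ 4 * v 0 + v 1 - e ^ (4 * 4) * v 2) := rfl
    rw [e0, e1, e2, e3, e4, e5', mul_pow, mul_pow η, mul_pow η, mul_pow η, hη]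
    have r8 : e ^ (4 * 2) = e ^ 3 := by
      have : e ^ (4 * 2) = e ^ 5 * e ^ 3 := by ring
      rw [this, h5, one_mul]
    have r12 : e ^ (4 * 3) = e ^ 2 := by
      have : e ^ (4 * 3) = e ^ 5 * e ^ 5 * e ^ 2 := by ring
      rw [this, h5]; ring
    have r16 : e ^ (4 * 4) = e := by
      have : e ^ (4 * 4) = e ^ 5 * e ^ 5 * e ^ 5 * e := by ring
      rw [this, h5]; ring
    have r14 : ρ ^ 14 = 78125 := by
      have : ρ ^ 14 = (ρ ^ 2) ^ 7 := by ring
      rw [this, hρ]; norm_num
    rw [r8, r12, r16, r14]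
    simp only [mul_zero, pow_zero, mul_one, one_mul, pow_one]
    linear_combination hps
  · rintro ⟨i, j, hij, a, b, hab, hall⟩
    have hv : ∀ u w z : ℂ, w * w - u * z = 0 → a * f i ![u, w, z] - b * f j ![u, w, z] = 0 := by
      intro u w z h
      exact hall _ ⟨![u, w, z], h, rfl⟩
    have p1 := hv 1 0 0 (by ring)
    have p2 := hv 0 0 1 (by ring)
    have p3 := hv 1 1 1 (by ring)
    rcases Fin.eq_zero_or_eq_succ i with rfl | ⟨k, rfl⟩
    · rcases Fin.eq_zero_or_eq_succ j with rfl | ⟨l, rfl⟩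
      · exact hij rfl
      · rw [hf0, hfs] at p1 p3
        simp at p1 p3
        have hb : b = 0 := by
          rcases p1 with h | h | h
          · exact h
          · exact absurd h (hm0 l)
          · exact absurd h.1 he0
        rw [hb] at p3
        simp at p3
        rcases p3 with h | h
        · rcases hab with h' | h'
          · exact h' h
          · exact h' hb
        · exact hρ0 h
    · rcases Fin.eq_zero_or_eq_succ j with rfl | ⟨l, rfl⟩
      · rw [hf0, hfs] at p1 p3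
        simp at p1 p3
        have ha : a = 0 := by
          rcases p1 with h | h | h
          · exact h
          · exact absurd h (hm0 k)
          · exact absurd h.1 he0
        rw [ha] at p3
        simp at p3
        rcases p3 with h | h
        · rcases hab with h' | h'
          · exact h' ha
          · exact h' h
        · exact hρ0 h
      · rw [hfs, hfs] at p1 p2
        simp at p1 p2
        -- `a m_k e^k = b m_l e^l` and `a m_k e^(4k) = b m_l e^(4l)`
        have q1 : a * m k * e ^ (k : ℕ) = b * m l * e ^ (l : ℕ) := by linear_combination p1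
        have q2 : a * m k * e ^ (4 * (k : ℕ)) = b * m l * e ^ (4 * (l : ℕ)) := by
          linear_combination -p2
        have r5 : ∀ n : ℕ, e ^ (4 * n) * e ^ n = 1 := by
          intro n
          rw [← pow_add]
          have : 4 * n + n = 5 * n := by ring
          rw [this, pow_mul, h5, one_pow]
        have ha0 : a ≠ 0 := by
          intro ha
          rw [ha, zero_mul, zero_mul] at q1
          have hb := hab.resolve_left (fun h => h ha)
          exact mul_ne_zero (mul_ne_zero hb (hm0 l)) (pow_ne_zero _ he0) q1.symm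
        -- multiply crosswise
        have q3 : a * m k * (e ^ (k : ℕ) * e ^ (k : ℕ)) = a * m k * (e ^ (l : ℕ) * e ^ (l : ℕ)) := by
          have s1 : a * m k = b * m l * e ^ (4 * (l : ℕ)) * e ^ (k : ℕ) := by
            rw [← q2, mul_assoc, r5, mul_one]
          calc a * m k * (e ^ (k : ℕ) * e ^ (k : ℕ)) = b * m l * e ^ (l : ℕ) * e ^ (k : ℕ) := by
                rw [← q1]; ring
            _ = b * m l * (e ^ (4 * (l : ℕ)) * e ^ (l : ℕ)) * e ^ (l : ℕ) * e ^ (k : ℕ) := by
                rw [r5]; ring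
            _ = (b * m l * e ^ (4 * (l : ℕ)) * e ^ (k : ℕ)) * (e ^ (l : ℕ) * e ^ (l : ℕ)) := by ring
            _ = _ := by rw [← s1]
        have q4 := mul_left_cancel₀ (mul_ne_zero ha0 (hm0 k)) q3
        -- raise to the third power: `e^(6k) = e^k`
        have q5 : e ^ (k : ℕ) = e ^ (l : ℕ) := by
          have t : ∀ n : ℕ, (e ^ n * e ^ n) ^ 3 = e ^ n := by
            intro n
            have : (e ^ n * e ^ n) ^ 3 = (e ^ 5) ^ n * e ^ n := by
              rw [← pow_mul]
              ring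
            rw [this, h5, one_pow, one_mul]
          rw [← t k, ← t l, q4]
        exact hij (congrArg Fin.succ (Fin.ext (hinj k l k.2 l.2 q5)))

end Pool.Agent.Q80.Conic
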