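import Pool.Agent.Q80.Conic.Wr

/-!
Six polynomials of degree two, pairwise not proportional: their `d`-th powers satisfy no linear
relation with all coefficients non-zero once `d ≥ 15`.
-/

namespace Pool.Agent.Q80.Conic

open Polynomial Pool.Agent.W515.SLP

section minimal
variable {K : Type*} [Field K]

lemma drop {n r : ℕ} (P : Fin n → K[X]) (i0 : Fin n) (e : Fin r → Fin n)
    (he : Function.Injective e) (hne : ∀ k, e k ≠ i0) (c : Fin r → K)
    (hc : P i0 = ∑ k, C (c k) * P (e k)) (k0 : Fin r) (hk : c k0 = 0) :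
    ∃ r' < r, ∃ e : Fin r' → Fin n, Function.Injective e ∧ (∀ k, e k ≠ i0) ∧
      ∃ c : Fin r' → K, P i0 = ∑ k, C (c k) * P (e k) := by
  cases r with
  | zero => exact k0.elim0
  | succ r' =>
    refine ⟨r', Nat.lt_succ_self _, e ∘ k0.succAbove, he.comp Fin.succAbove_right_injective,
      fun k => hne _, c ∘ k0.succAbove, ?_⟩
    rw [Fin.sum_univ_succAbove _ k0, hk, C_0, zero_mul, zero_add] at hc
    exact hc

lemma exists_min {n : ℕ} (P : Fin n → K[X]) (i0 : Fin n) (hsum : ∑ i, P i = 0) :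
    ∃ r : ℕ, ∃ e : Fin r → Fin n, Function.Injective e ∧ (∀ k, e k ≠ i0) ∧
      (∃ c : Fin r → K, P i0 = ∑ k, C (c k) * P (e k)) ∧
      ∀ c : Fin r → K, P i0 = ∑ k, C (c k) * P (e k) → ∀ k, c k ≠ 0 := by
  classical
  have hex : ∃ r : ℕ, ∃ e : Fin r → Fin n, Function.Injective e ∧ (∀ k, e k ≠ i0) ∧
      ∃ c : Fin r → K, P i0 = ∑ k, C (c k) * P (e k) := by
    cases n with
    | zero => exact i0.elim0
    | succ m =>
      refine ⟨m, i0.succAbove, Fin.succAbove_right_injective, fun k => Fin.succAbove_ne i0 k,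
        fun _ => -1, ?_⟩
      rw [Fin.sum_univ_succAbove _ i0] at hsum
      rw [eq_neg_of_add_eq_zero_left hsum, ← Finset.sum_neg_distrib]
      apply Finset.sum_congr rfl
      intro k _
      simp
  obtain ⟨e, he, hne, hc⟩ := Nat.find_spec hex
  refine ⟨Nat.find hex, e, he, hne, hc, ?_⟩
  intro c hc k0 hk0
  obtain ⟨r', hr', h⟩ := drop P i0 e he hne c hc k0 hk0
  exact Nat.find_min hex hr' h

lemma indep_of_min {n r : ℕ} (P : Fin n → K[X]) (i0 : Fin n) (e : Fin r → Fin n)
    (hc : ∃ c : Fin r → K, P i0 = ∑ k, C (c k) * P (e k))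
    (hmin : ∀ c : Fin r → K, P i0 = ∑ k, C (c k) * P (e k) → ∀ k, c k ≠ 0) :
    LinearIndependent K fun k => P (e k) := by
  obtain ⟨c, hc⟩ := hc
  rw [Fintype.linearIndependent_iff]
  intro g hg k0
  by_contra hk0
  refine hmin (fun k => c k - c k0 / g k0 * g k) ?_ k0 ?_
  · have h1 : ∑ k, C (c k - c k0 / g k0 * g k) * P (e k) =
        ∑ k, C (c k) * P (e k) - C (c k0 / g k0) * ∑ k, g k • P (e k) := by
      rw [Finset.mul_sum, ← Finset.sum_sub_distrib]
      apply Finset.sum_congr rfl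
      intro k _
      rw [smul_eq_C_mul, C_sub, C_mul]
      ring
    rw [h1, hg, mul_zero, sub_zero]
    exact hc
  · show c k0 - c k0 / g k0 * g k0 = 0
    rw [div_mul_cancel₀ _ hk0, sub_self]

end minimal

variable {k : Type*} [Field k] [CharZero k]

omit [CharZero k] in
/-- Division by the greatest common divisor. -/
lemma exists_reduced {r : ℕ} (g' : k[X]) (g : Fin r → k[X]) (hg' : g' ≠ 0) :
    ∃ (G q' : k[X]) (q : Fin r → k[X]), G ≠ 0 ∧ g' = G * q' ∧ (∀ j, g j = G * q j) ∧
      Ideal.span (insert q' (Set.range q)) = ⊤ := by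
  set I : Ideal k[X] := Ideal.span (insert g' (Set.range g)) with hI
  obtain ⟨G, hG⟩ : ∃ G, I = Ideal.span {G} :=
    ⟨Submodule.IsPrincipal.generator I, (Ideal.span_singleton_generator I).symm⟩
  have h1 : g' ∈ Ideal.span {G} := by
    rw [← hG]; exact Ideal.subset_span (Set.mem_insert _ _)
  have h2 : ∀ j, g j ∈ Ideal.span {G} := by
    intro j
    rw [← hG]; exact Ideal.subset_span (Set.mem_insert_of_mem _ ⟨j, rfl⟩)
  rw [Ideal.mem_span_singleton] at h1
  obtain ⟨q', hq'⟩ := h1
  have h3 : ∀ j, ∃ q, g j = G * q := fun j => Ideal.mem_span_singleton.1 (h2 j)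
  choose q hq using h3
  have hG0 : G ≠ 0 := by
    rintro rfl
    rw [zero_mul] at hq'
    exact hg' hq'
  refine ⟨G, q', q, hG0, hq', hq, ?_⟩
  have h4 : ∀ x ∈ I, ∃ y ∈ Ideal.span (insert q' (Set.range q)), x = G * y := by
    intro x hx
    rw [hI] at hx
    induction hx using Submodule.span_induction with
    | mem x hx =>
      rcases hx with rfl | ⟨j, rfl⟩
      · exact ⟨q', Ideal.subset_span (Set.mem_insert _ _), hq'⟩
      · exact ⟨q j, Ideal.subset_span (Set.mem_insert_of_mem _ ⟨j, rfl⟩), hq j⟩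
    | zero => exact ⟨0, Ideal.zero_mem _, by simp⟩
    | add x y _ _ hx hy =>
      obtain ⟨a, ha, rfl⟩ := hx
      obtain ⟨b, hb, rfl⟩ := hy
      exact ⟨a + b, Ideal.add_mem _ ha hb, by ring⟩
    | smul a x _ hx =>
      obtain ⟨b, hb, rfl⟩ := hx
      exact ⟨a * b, Ideal.mul_mem_left _ _ hb, by rw [smul_eq_mul]; ring⟩
  obtain ⟨y, hy, hGy⟩ := h4 G (by rw [hG]; exact Ideal.mem_span_singleton_self G)
  have : y = 1 := by
    have : G * y = G * 1 := by rw [← hGy, mul_one]
    exact mul_left_cancel₀ hG0 this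
  rw [this] at hy
  exact (Ideal.eq_top_iff_one _).2 hy

/-- The main inequality. -/
theorem no_relation (g : Fin 6 → k[X]) (hdeg : ∀ i, (g i).natDegree = 2)
    (hprop : ∀ i j, i ≠ j → ∀ a : k, g i ≠ C a * g j) (d : ℕ) (hd : 15 ≤ d) (ε : Fin 6 → k)
    (hε : ∀ i, ε i ≠ 0) (hrel : ∑ i, C (ε i) * g i ^ d = 0) : False := by
  classical
  have hg0 : ∀ i, g i ≠ 0 := by
    intro i h
    have := hdeg i
    rw [h, natDegree_zero] at this
    omega
  obtain ⟨r, e, he, hne, ⟨c, hc⟩, hmin⟩ := exists_min (fun i => C (ε i) * g i ^ d) 0 hrel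
  have hli := indep_of_min (fun i => C (ε i) * g i ^ d) 0 e ⟨c, hc⟩ hmin
  have hc0 := hmin c hc
  have hr1 : 1 ≤ r := by
    by_contra hr
    have : r = 0 := by omega
    subst this
    simp only [Finset.univ_eq_empty, Finset.sum_empty] at hc
    rcases mul_eq_zero.1 hc with h | h
    · exact hε 0 (C_eq_zero.1 h)
    · exact hg0 0 (pow_eq_zero_iff (by omega) |>.1 h)
  have hr5 : r ≤ 5 := by
    have h1 : Function.Injective (fun o : Option (Fin r) => (o.elim 0 e : Fin 6)) := by
      intro a b hab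
      cases a with
      | none =>
        cases b with
        | none => rfl
        | some b => exact absurd hab.symm (hne b)
      | some a =>
        cases b with
        | none => exact absurd hab (hne a)
        | some b => exact congrArg some (he hab)
    have h2 := Fintype.card_le_of_injective _ h1
    simp at h2
    omega
  obtain ⟨G, q', q, hG0, hq', hq, htop⟩ := exists_reduced (g 0) (fun j => g (e j)) (hg0 0)
  have hq'0 : q' ≠ 0 := by
    rintro rfl
    rw [mul_zero] at hq'
    exact hg0 0 hq'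
  have hq0 : ∀ j, q j ≠ 0 := by
    intro j h
    have := hq j
    rw [h, mul_zero] at this
    exact hg0 _ this
  have hdq' : G.natDegree + q'.natDegree = 2 := by
    rw [← natDegree_mul hG0 hq'0, ← hq', hdeg]
  have hdq : ∀ j, G.natDegree + (q j).natDegree = 2 := by
    intro j
    rw [← natDegree_mul hG0 (hq0 j), ← hq j, hdeg]
  set E := q'.natDegree with hE
  have hqE : ∀ j, (q j).natDegree = E := fun j => by have := hdq j; omega
  have hE1 : 1 ≤ E := by
    by_contra hE0
    have h1 : E = 0 := by omega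
    rw [hE, natDegree_eq_zero] at h1
    obtain ⟨x, hx⟩ := h1
    have h2 := hqE ⟨0, hr1⟩
    rw [show E = 0 by omega, natDegree_eq_zero] at h2
    obtain ⟨y, hy⟩ := h2
    have hy0 : y ≠ 0 := by
      rintro rfl
      apply hq0 ⟨0, hr1⟩
      rw [← hy, C_0]
    apply hprop 0 (e ⟨0, hr1⟩) (Ne.symm (hne _)) (x / y)
    rw [hq', hq, ← hx, ← hy]
    have : C (x / y) * C y = (C x : k[X]) := by rw [← C_mul, div_mul_cancel₀ _ hy0]
    rw [← this]
    ring
  have hE2 : E ≤ 2 := by omega
  -- linear independence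
  have hli2 : LinearIndependent k fun j => q j ^ d := by
    rw [Fintype.linearIndependent_iff] at hli ⊢
    intro a ha j
    have h1 := hli (fun j => a j / ε (e j)) (by
      have h2 : ∀ j, (a j / ε (e j)) • (C (ε (e j)) * g (e j) ^ d) = G ^ d * (a j • q j ^ d) := by
        intro j
        rw [hq j, mul_pow, smul_eq_C_mul, smul_eq_C_mul, ← mul_assoc, ← C_mul,
          div_mul_cancel₀ _ (hε _)]
        ring
      simp only [h2]
      rw [← Finset.mul_sum, ha, mul_zero]) j
    simp only [div_eq_zero_iff] at h1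
    exact h1.resolve_right (hε _)
  have hrel2 : q' ^ d = ∑ j, C (c j * ε (e j) / ε 0) * q j ^ d := by
    have h1 : G ^ d * (C (ε 0) * q' ^ d) = G ^ d * ∑ j, C (c j * ε (e j)) * q j ^ d := by
      have h2 : C (ε 0) * g 0 ^ d = ∑ k, C (c k) * (C (ε (e k)) * g (e k) ^ d) := hc
      rw [Finset.mul_sum]
      calc G ^ d * (C (ε 0) * q' ^ d) = C (ε 0) * g 0 ^ d := by rw [hq', mul_pow]; ring
        _ = _ := h2
        _ = _ := by
          apply Finset.sum_congr rfl
          intro j _
          rw [hq j, mul_pow, C_mul]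
          ring
    have h2 := mul_left_cancel₀ (pow_ne_zero d hG0) h1
    have h3 : C (ε 0)⁻¹ * (C (ε 0) * q' ^ d) = q' ^ d := by
      rw [← mul_assoc, ← C_mul, inv_mul_cancel₀ (hε 0), C_1, one_mul]
    rw [← h3, h2, Finset.mul_sum]
    apply Finset.sum_congr rfl
    intro j _
    rw [← mul_assoc, ← C_mul]
    congr 2
    field_simp
  have hfin := wronskian_ineq q q' E d (by nlinarith) hqE rfl hq0 hq'0 hli2 _ (by
    intro j
    exact div_ne_zero (mul_ne_zero (hc0 j) (hε _)) (hε _)) hrel2 htop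
  interval_cases E <;> interval_cases r <;> omega

end Pool.Agent.Q80.Conic
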