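import Mathlib
import Pool.Agent.W515.SLP.Wron

/-!
The Wronskian inequality for powers of polynomials of the same degree.
-/

namespace Pool.Agent.Q80.Conic

open Polynomial Pool.Agent.W515.SLP

variable {k : Type*} [Field k] [CharZero k]

/-- the operator `m f - X f'` -/
noncomputable def th (m : ℕ) (f : k[X]) : k[X] := (m : k[X]) * f - X * derivative f

omit [CharZero k] in
lemma natDegree_th (m : ℕ) (f : k[X]) (hf : f.natDegree ≤ m + 1) :
    (th (m + 1) f).natDegree ≤ m := by
  rw [natDegree_le_iff_coeff_eq_zero]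
  intro N hN
  unfold th
  obtain ⟨N', rfl⟩ : ∃ N', N = N' + 1 := ⟨N - 1, by omega⟩
  have h1 : ((m + 1 : ℕ) : k[X]) = C ((m + 1 : ℕ) : k) := by simp
  rw [coeff_sub, h1, coeff_C_mul, coeff_X_mul, coeff_derivative]
  rcases Nat.lt_or_ge (m + 1) (N' + 1) with h | h
  · rw [coeff_eq_zero_of_natDegree_lt (by omega)]
    ring
  · have : N' = m := by omega
    subst this
    push_cast
    ring

/-- iterates of the operators `th` -/
noncomputable def PT (m : ℕ) : ℕ → k[X] → k[X]
  | 0, f => f
  | s + 1, f => th (m - s) (PT m s f)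

omit [CharZero k] in
lemma natDegree_PT (m s : ℕ) (hs : s ≤ m) (f : k[X]) (hf : f.natDegree ≤ m) :
    (PT m s f).natDegree ≤ m - s := by
  induction s with
  | zero => simpa [PT] using hf
  | succ s ih =>
    have h1 := ih (by omega)
    have h2 : m - s = (m - (s + 1)) + 1 := by omega
    change (th (m - s) (PT m s f)).natDegree ≤ _
    rw [h2] at h1 ⊢
    exact natDegree_th _ _ h1

omit [CharZero k] in
lemma PT_expand (m s : ℕ) : ∃ c : ℕ → k, c 0 = ∏ t ∈ Finset.range s, ((m - t : ℕ) : k) ∧
    (∀ l, s < l → c l = 0) ∧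
    ∀ g : k[X], PT m s g = ∑ l ∈ Finset.range (s + 1), C (c l) * X ^ l * derivative^[l] g := by
  induction s with
  | zero =>
    refine ⟨fun l => if l = 0 then 1 else 0, by simp, ?_, ?_⟩
    · intro l hl
      exact if_neg (by omega)
    · intro g
      simp [PT]
  | succ s ih =>
    obtain ⟨c, hc0, hcs, hc⟩ := ih
    refine ⟨fun l => c l * (((m - s : ℕ) : k) - l) - (if l = 0 then 0 else c (l - 1)), ?_, ?_, ?_⟩
    · simp only [if_true, sub_zero, Nat.cast_zero]
      rw [Finset.prod_range_succ, hc0]
    · intro l hl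
      simp only
      rw [if_neg (by omega), hcs l (by omega), hcs (l - 1) (by omega)]
      ring
    · intro g
      change th (m - s) (PT m s g) = _
      rw [hc g]
      unfold th
      rw [derivative_sum, Finset.mul_sum, Finset.mul_sum, ← Finset.sum_sub_distrib]
      have h1 : ∀ l ∈ Finset.range (s + 1), (((m - s : ℕ) : k[X]) * (C (c l) * X ^ l * derivative^[l] g) -
          X * derivative (C (c l) * X ^ l * derivative^[l] g)) =
          C (c l * (((m - s : ℕ) : k) - l)) * X ^ l * derivative^[l] g -
          C (c l) * X ^ (l + 1) * derivative^[l + 1] g := by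
        intro l _
        rw [derivative_mul, derivative_mul, derivative_C, zero_mul, zero_add, derivative_X_pow,
          Function.iterate_succ_apply']
        have h2 : X * (C (c l) * (C (l : k) * X ^ (l - 1)) * derivative^[l] g) =
            C (c l) * (C (l : k) * X ^ l) * derivative^[l] g := by
          rcases Nat.eq_zero_or_pos l with h | h
          · subst h; simp
          · obtain ⟨l', rfl⟩ : ∃ l', l = l' + 1 := ⟨l - 1, by omega⟩
            rw [Nat.add_sub_cancel, pow_succ]
            ring
        rw [mul_add, h2, C_mul, C_sub]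
        simp only [map_natCast]
        ring
      rw [Finset.sum_congr rfl h1, Finset.sum_sub_distrib]
      have h3 : ∑ l ∈ Finset.range (s + 1), C (c l) * X ^ (l + 1) * derivative^[l + 1] g =
          ∑ l ∈ Finset.range (s + 2), C (if l = 0 then 0 else c (l - 1)) * X ^ l * derivative^[l] g := by
        rw [Finset.sum_range_succ' _ (s + 1)]
        simp
      have h4 : ∑ l ∈ Finset.range (s + 1), C (c l * (((m - s : ℕ) : k) - l)) * X ^ l * derivative^[l] g =
          ∑ l ∈ Finset.range (s + 2), C (c l * (((m - s : ℕ) : k) - l)) * X ^ l * derivative^[l] g := by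
        rw [Finset.sum_range_succ _ (s + 1), hcs (s + 1) (by omega)]
        simp
      rw [h3, h4, ← Finset.sum_sub_distrib]
      apply Finset.sum_congr rfl
      intro l _
      simp only [C_sub]
      ring

open Classical in
/-- The sharp degree bound for a Wronskian. -/
lemma natDegree_wmat_det_sharp {r : ℕ} (f : Fin r → k[X]) (D : ℕ) (hD : r ≤ D + 1)
    (hf : ∀ j, (f j).natDegree ≤ D) : (wmat f).det.natDegree ≤ r * (D - (r - 1)) := by
  choose c hc0 _ hc using fun (i : Fin r) => PT_expand (k := k) (D - i) (r - 1 - i)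
  set U : Matrix (Fin r) (Fin r) k[X] := Matrix.of fun i i' =>
    if i ≤ i' then C (c i (i' - i : ℕ)) * X ^ (i' - i : ℕ) else 0 with hU
  set E : Matrix (Fin r) (Fin r) k[X] := Matrix.of fun i j =>
    PT (D - i) (r - 1 - i) (derivative^[(i : ℕ)] (f j)) with hE
  have hEU : E = U * wmat f := by
    ext1 i j
    rw [Matrix.mul_apply]
    simp only [hE, hU, wmat, Matrix.of_apply]
    rw [hc i]
    have hi := i.2
    have e1 : ∑ i' : Fin r, (if i ≤ i' then C (c i (i' - i : ℕ)) * X ^ (i' - i : ℕ) else 0) *
        derivative^[(i' : ℕ)] (f j) = ∑ i' ∈ Finset.range r,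
        (if (i : ℕ) ≤ i' then C (c i (i' - i : ℕ)) * X ^ (i' - i : ℕ) else 0) *
        derivative^[i'] (f j) := by
      rw [Finset.sum_range]
      apply Finset.sum_congr rfl
      intro i' _
      simp only [Fin.le_def]
    rw [e1]
    have e2 : ∀ m, ∑ i' ∈ Finset.range ((i : ℕ) + m),
        (if (i : ℕ) ≤ i' then C (c i (i' - i : ℕ)) * X ^ (i' - i : ℕ) else 0) *
        derivative^[i'] (f j) = ∑ l ∈ Finset.range m, C (c i l) * X ^ l *
        derivative^[l] (derivative^[(i : ℕ)] (f j)) := by
      intro m
      rw [Finset.sum_range_add]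
      have e3 : ∑ x ∈ Finset.range (i : ℕ),
        (if (i : ℕ) ≤ x then C (c i (x - i : ℕ)) * X ^ (x - i : ℕ) else 0) *
        derivative^[x] (f j) = 0 := by
        apply Finset.sum_eq_zero
        intro x hx
        rw [Finset.mem_range] at hx
        rw [if_neg (by omega), zero_mul]
      rw [e3, zero_add]
      apply Finset.sum_congr rfl
      intro l _
      rw [if_pos (by omega), Nat.add_sub_cancel_left, ← Function.iterate_add_apply, add_comm l]
    have e4 := e2 (r - 1 - i + 1)
    have e5 : (i : ℕ) + (r - 1 - i + 1) = r := by omega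
    rw [e5] at e4
    rw [e4]
  have hdetU : U.det = C (∏ i : Fin r, c i 0) := by
    rw [Matrix.det_of_isUpperTriangular]
    · rw [map_prod]
      apply Finset.prod_congr rfl
      intro i _
      simp [hU]
    · intro i j hij
      simp only [hU, Matrix.of_apply]
      exact if_neg (not_le.2 hij)
  have hne : (∏ i : Fin r, c i 0) ≠ 0 := by
    rw [Finset.prod_ne_zero_iff]
    intro i _
    rw [hc0, Finset.prod_ne_zero_iff]
    intro t ht
    rw [Finset.mem_range] at ht
    rw [Nat.cast_ne_zero]
    have := i.2
    omega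
  have h1 : E.det = C (∏ i : Fin r, c i 0) * (wmat f).det := by
    rw [hEU, Matrix.det_mul, hdetU]
  have h2 : E.det.natDegree = (wmat f).det.natDegree := by
    rw [h1, natDegree_C_mul hne]
  rw [← h2, Matrix.det_apply]
  refine natDegree_sum_le_of_forall_le _ _ ?_
  intro σ _
  have h6 : (∏ i, E (σ i) i).natDegree ≤ r * (D - (r - 1)) := by
    refine (natDegree_prod_le _ _).trans ?_
    refine (Finset.sum_le_card_nsmul _ _ (D - (r - 1)) ?_).trans ?_
    · intro j _
      simp only [hE, Matrix.of_apply]
      have h7 := (σ j).2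
      refine (natDegree_PT _ _ (by omega) _ ?_).trans (by omega)
      refine (natDegree_iterate_derivative _ _).trans ?_
      have := hf j
      omega
    · simp
  rcases Int.units_eq_one_or (Equiv.Perm.sign σ) with h | h
  · rw [h, one_smul]; exact h6
  · rw [h]
    simpa using h6

omit [CharZero k] in
/-- Divisibility of a Wronskian of powers by the product of slightly smaller powers. -/
lemma prod_pow_dvd_wmat_det {r : ℕ} (f q : Fin r → k[X]) (N : ℕ)
    (h : ∀ j, q j ^ N ∣ f j) : ∏ j, q j ^ (N - (r - 1)) ∣ (wmat f).det := by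
  rw [Matrix.det_apply]
  apply Finset.dvd_sum
  intro σ _
  have h6 : ∏ j, q j ^ (N - (r - 1)) ∣ ∏ i, (wmat f) (σ i) i := by
    apply Finset.prod_dvd_prod_of_dvd
    intro j _
    simp only [wmat, Matrix.of_apply]
    refine dvd_trans ?_ (pow_sub_dvd_iterate_derivative_of_pow_dvd ((σ j : Fin r) : ℕ) (h j))
    apply pow_dvd_pow
    have := (σ j).2
    omega
  rcases Int.units_eq_one_or (Equiv.Perm.sign σ) with h | h
  · rw [h, one_smul]; exact h6
  · rw [h]
    simpa using h6

/-- The Wronskian inequality. -/
theorem wronskian_ineq {r : ℕ} (q : Fin r → k[X]) (q' : k[X]) (e d : ℕ)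
    (hd : r ≤ e * d + 1)
    (hq : ∀ j, (q j).natDegree = e) (hq' : q'.natDegree = e) (hq0 : ∀ j, q j ≠ 0) (hq'0 : q' ≠ 0)
    (hli : LinearIndependent k fun j => q j ^ d) (c : Fin r → k) (hc : ∀ j, c j ≠ 0)
    (hrel : q' ^ d = ∑ j, C (c j) * q j ^ d)
    (htop : Ideal.span (insert q' (Set.range q)) = ⊤) :
    (r + 1) * (e * (d - (r - 1))) ≤ r * (e * d - (r - 1)) := by
  classical
  set f : Fin r → k[X] := fun j => q j ^ d with hf
  set N := d - (r - 1) with hN
  set W := (wmat f).det with hW
  have hW0 : W ≠ 0 := wmat_det_ne_zero f hli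
  have hdeg : W.natDegree ≤ r * (e * d - (r - 1)) := by
    apply natDegree_wmat_det_sharp f (e * d) hd
    intro j
    rw [hf, natDegree_pow, hq, mul_comm]
  set PR := q' ^ N * ∏ j, q j ^ N with hPR
  -- each `P_j W` is divisible by the full product
  have h1 : PR ∣ q' ^ N * W := by
    apply mul_dvd_mul_left
    exact prod_pow_dvd_wmat_det f q d (fun j => dvd_rfl)
  have h2 : ∀ j0, PR ∣ q j0 ^ N * W := by
    intro j0
    have h3 := wmat_update f c j0
    have h4 : ∑ j, C (c j) * f j = q' ^ d := hrel.symm
    rw [h4] at h3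
    have h5 := prod_pow_dvd_wmat_det (Function.update f j0 (q' ^ d)) (Function.update q j0 q') d (by
      intro j
      by_cases hj : j = j0
      · subst hj
        rw [Function.update_self, Function.update_self]
      · rw [Function.update_of_ne hj, Function.update_of_ne hj])
    rw [h3] at h5
    have h6 : ∏ j, (Function.update q j0 q') j ^ (d - (r - 1)) ∣ W :=
      (IsUnit.dvd_mul_left (isUnit_C.2 (isUnit_iff_ne_zero.2 (hc j0)))).1 h5
    rw [← Finset.mul_prod_erase _ _ (Finset.mem_univ j0), Function.update_self] at h6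
    have h7 : ∏ x ∈ Finset.univ.erase j0, (Function.update q j0 q') x ^ (d - (r - 1)) =
        ∏ x ∈ Finset.univ.erase j0, q x ^ N := by
      apply Finset.prod_congr rfl
      intro x hx
      rw [Function.update_of_ne (Finset.ne_of_mem_erase hx)]
    rw [h7] at h6
    have h8 : PR = q j0 ^ N * (q' ^ N * ∏ x ∈ Finset.univ.erase j0, q x ^ N) := by
      rw [hPR, ← Finset.mul_prod_erase _ _ (Finset.mem_univ j0)]
      ring
    rw [h8]
    exact mul_dvd_mul_left _ h6
  have h3 : PR ∣ W := by
    have htop2 := Ideal.span_pow_eq_top _ htop N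
    have h4 : (1 : k[X]) ∈ Ideal.span ((fun x => x ^ N) '' (insert q' (Set.range q))) := by
      rw [htop2]; trivial
    have h5 : ∀ x ∈ Ideal.span ((fun x => x ^ N) '' (insert q' (Set.range q))), PR ∣ x * W := by
      intro x hx
      induction hx using Submodule.span_induction with
      | mem x hx =>
        obtain ⟨y, hy, rfl⟩ := hx
        rcases hy with rfl | ⟨j, rfl⟩
        · exact h1
        · exact h2 j
      | zero => simp
      | add x y _ _ hx hy => rw [add_mul]; exact dvd_add hx hy
      | smul a x _ hx => rw [smul_eq_mul, mul_assoc]; exact hx.mul_left a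
    have := h5 1 h4
    rwa [one_mul] at this
  have h4 := natDegree_le_of_dvd h3 hW0
  have h5 : PR.natDegree = (r + 1) * (e * N) := by
    rw [hPR, natDegree_mul, natDegree_pow, hq', natDegree_prod]
    · have : ∀ j, (q j ^ N).natDegree = e * N := by
        intro j
        rw [natDegree_pow, hq, mul_comm]
      simp only [this, Finset.sum_const, Finset.card_univ, Fintype.card_fin, smul_eq_mul]
      ring
    · intro j _
      exact pow_ne_zero _ (hq0 j)
    · exact pow_ne_zero _ hq'0
    · rw [Finset.prod_ne_zero_iff]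
      intro j _
      exact pow_ne_zero _ (hq0 j)
  rw [h5] at h4
  exact h4.trans hdeg

end Pool.Agent.Q80.Conic
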